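import Mathlib
import Pool.Agent.Y16.AF.StmC
import Pool.Agent.Y929.AF.Wl
import Pool.Agent.Y48.AF.Trig

/-! Project AF: the value of the limit of the fluctuation. -/

set_option autoImplicit false

open MeasureTheory Matrix Filter
open scoped Topology

namespace Pool.Agent.Y710.AF

open Pool.Agent.Y16.AF Pool.Agent.Y929.AF Pool.Agent.Y901.AF

noncomputable section

/-! ### the sum over the fourth momentum -/

theorem geo0 {L : ℕ} (hL : 1 ≤ L) {ζ : ℂ} (hζ : IsPrimitiveRoot ζ L) {q : ℝ} (hq0 : 0 < q)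
    (hq1 : q < 1) :
    ∑ m ∈ Finset.range L, 1 / (1 - (q : ℂ) * ζ ^ m) = (L : ℂ) / (1 - (q : ℂ) ^ L) := by
  have hnz : ‖ζ‖ = 1 := Complex.norm_eq_one_of_pow_eq_one hζ.pow_eq_one (by omega)
  have hq2 : (1 : ℂ) - (q : ℂ) ^ L ≠ 0 := by
    have := Pool.Agent.Y48.AF.one_sub_ne (q := q ^ L) (pow_pos hq0 L)
      (pow_lt_one₀ hq0.le hq1 (by omega)) (E := 1) norm_one
    simpa using this
  have h1 : ∀ m ∈ Finset.range L, 1 / (1 - (q : ℂ) * ζ ^ m) =
      ∑ n ∈ Finset.range L, (q : ℂ) ^ n / (1 - (q : ℂ) ^ L) * (ζ ^ m) ^ n := by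
    intro m _
    have hE : ‖ζ ^ m‖ = 1 := by rw [norm_pow, hnz, one_pow]
    have hne := Pool.Agent.Y48.AF.one_sub_ne hq0 hq1 hE
    have hx : ((q : ℂ) * ζ ^ m) ^ L = (q : ℂ) ^ L := by
      rw [mul_pow, ← pow_mul, mul_comm m L, pow_mul, hζ.pow_eq_one, one_pow, mul_one]
    have hg := mul_neg_geom_sum ((q : ℂ) * ζ ^ m) L
    rw [hx] at hg
    have h2 : ∑ n ∈ Finset.range L, (q : ℂ) ^ n / (1 - (q : ℂ) ^ L) * (ζ ^ m) ^ n =
        (∑ n ∈ Finset.range L, ((q : ℂ) * ζ ^ m) ^ n) / (1 - (q : ℂ) ^ L) := by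
      rw [Finset.sum_div]
      refine Finset.sum_congr rfl fun n _ => ?_
      rw [mul_pow]
      ring
    rw [h2, div_eq_div_iff hne hq2, one_mul, ← hg]
    ring
  rw [Finset.sum_congr rfl h1, Finset.sum_comm]
  have h3 : ∀ n ∈ Finset.range L, ∑ m ∈ Finset.range L,
      (q : ℂ) ^ n / (1 - (q : ℂ) ^ L) * (ζ ^ m) ^ n =
      if n = 0 then (L : ℂ) / (1 - (q : ℂ) ^ L) else 0 := by
    intro n hn
    rw [← Finset.mul_sum, Pool.Agent.Y48.AF.root_sum hζ n]
    by_cases h : n = 0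
    · subst h
      simp only [dvd_zero, if_true, pow_zero]
      ring
    · have h4 : ¬ L ∣ n := fun h5 => by
        have := Nat.le_of_dvd (Nat.pos_of_ne_zero h) h5
        have := Finset.mem_range.1 hn
        omega
      rw [if_neg h4, if_neg h, mul_zero]
  rw [Finset.sum_congr rfl h3, Finset.sum_ite_eq' (Finset.range L) 0, if_pos (Finset.mem_range.2 hL)]

theorem term0 {q : ℝ} (hq0 : 0 < q) (hq1 : q < 1) (t : ℝ) (E : ℂ)
    (hE : E = Complex.exp (t * Complex.I)) :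
    (((1 / (q + q⁻¹ - 2 * Real.cos t) : ℝ)) : ℂ) =
      (q : ℂ) / (1 - (q : ℂ) ^ 2) * (1 / (1 - (q : ℂ) * E) + 1 / (1 - (q : ℂ) * E⁻¹) - 1) := by
  have hnE : ‖E‖ = 1 := by
    rw [hE]
    exact Complex.norm_exp_ofReal_mul_I t
  have hE0 : E ≠ 0 := by
    intro h
    rw [h, norm_zero] at hnE
    exact zero_ne_one hnE
  have hnE' : ‖E⁻¹‖ = 1 := by rw [norm_inv, hnE, inv_one]
  have hq : (q : ℂ) ≠ 0 := by exact_mod_cast hq0.ne'
  have n1 := Pool.Agent.Y48.AF.one_sub_ne hq0 hq1 hnE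
  have n2 := Pool.Agent.Y48.AF.one_sub_ne hq0 hq1 hnE'
  have hq2 : (1 : ℂ) - (q : ℂ) ^ 2 ≠ 0 := by
    have := Pool.Agent.Y48.AF.one_sub_ne (q := q ^ 2) (pow_pos hq0 2)
      (pow_lt_one₀ hq0.le hq1 (by omega)) (E := 1) norm_one
    simpa using this
  have hcos : ((Real.cos t : ℝ) : ℂ) = (E + E⁻¹) / 2 := by
    rw [Complex.ofReal_cos, Complex.cos, hE, ← Complex.exp_neg, neg_mul]
  obtain ⟨F, hF⟩ : ∃ F : ℂ, F = E⁻¹ := ⟨_, rfl⟩
  have hEF : E * F = 1 := by rw [hF, mul_inv_cancel₀ hE0]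
  have e1 : (((1 / (q + q⁻¹ - 2 * Real.cos t) : ℝ)) : ℂ) =
      1 / ((q : ℂ) + (q : ℂ)⁻¹ - 2 * ((Real.cos t : ℝ) : ℂ)) := by
    push_cast
    ring
  rw [e1, hcos]
  rw [← hF] at n2 ⊢
  have hden : (q : ℂ) + (q : ℂ)⁻¹ - 2 * ((E + F) / 2) =
      (1 - (q : ℂ) * E) * (1 - (q : ℂ) * F) / q := by
    field_simp
    linear_combination -((q : ℂ) ^ 2) * hEF
  have hnum : 1 / (1 - (q : ℂ) * E) + 1 / (1 - (q : ℂ) * F) - 1 =
      (1 - (q : ℂ) ^ 2) / ((1 - (q : ℂ) * E) * (1 - (q : ℂ) * F)) := by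
    field_simp
    linear_combination -((q : ℂ) ^ 2) * hEF
  rw [hden, hnum]
  field_simp

theorem poisson {L : ℕ} (hL : 1 ≤ L) {w a : ℝ} (hw : 0 < w) (ha : 2 * Real.cosh w - 2 = a) :
    ∑ m ∈ Finset.range L, 1 / (a + 2 - 2 * Real.cos (2 * Real.pi * m / L)) =
      L / (2 * Real.sinh w) * ((1 + Real.exp (-(w * L))) / (1 - Real.exp (-(w * L)))) := by
  obtain ⟨q, hq⟩ : ∃ q : ℝ, q = Real.exp (-w) := ⟨_, rfl⟩
  have hq0 : 0 < q := by rw [hq]; exact Real.exp_pos _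
  have hq1 : q < 1 := by
    rw [hq, ← Real.exp_zero]
    exact Real.exp_lt_exp.2 (by linarith)
  have hqi : q⁻¹ = Real.exp w := by rw [hq, ← Real.exp_neg, neg_neg]
  have hA : a + 2 = q + q⁻¹ := by
    rw [← ha, Real.cosh_eq, hqi, hq]
    ring
  have hS : 2 * Real.sinh w = q⁻¹ - q := by
    rw [Real.sinh_eq, hqi, hq]
    ring
  have hQ : Real.exp (-(w * L)) = q ^ L := by
    rw [hq, ← Real.exp_nat_mul]
    congr 1
    ring
  have hQ1 : q ^ L < 1 := pow_lt_one₀ hq0.le hq1 (by omega)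
  have hq21 : q ^ 2 < 1 := pow_lt_one₀ hq0.le hq1 (by omega)
  obtain ⟨ζ, hζ⟩ : ∃ ζ : ℂ, ζ = Complex.exp (2 * Real.pi * Complex.I / L) := ⟨_, rfl⟩
  have hprim : IsPrimitiveRoot ζ L := by
    rw [hζ]
    exact Complex.isPrimitiveRoot_exp L (by omega)
  have hLr : (L : ℂ) ≠ 0 := by exact_mod_cast (show L ≠ 0 by omega)
  have hE : ∀ m : ℕ, ζ ^ m = Complex.exp (((2 * Real.pi * m / L : ℝ) : ℂ) * Complex.I) := by
    intro m
    rw [hζ, ← Complex.exp_nat_mul]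
    congr 1
    push_cast
    ring
  rw [hQ, hS, hA]
  apply Complex.ofReal_injective
  rw [Complex.ofReal_sum]
  rw [Finset.sum_congr rfl fun (m : ℕ) _ => term0 hq0 hq1 (2 * Real.pi * (m : ℝ) / L) (ζ ^ m) (hE m)]
  rw [← Finset.mul_sum, Finset.sum_sub_distrib, Finset.sum_add_distrib, geo0 hL hprim hq0 hq1]
  have hprim' : IsPrimitiveRoot ζ⁻¹ L := hprim.inv
  have h1 : ∑ m ∈ Finset.range L, 1 / (1 - (q : ℂ) * (ζ ^ m)⁻¹) = (L : ℂ) / (1 - (q : ℂ) ^ L) := by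
    rw [← geo0 hL hprim' hq0 hq1]
    refine Finset.sum_congr rfl fun m _ => ?_
    rw [inv_pow]
  rw [h1, Finset.sum_const, Finset.card_range, nsmul_eq_mul, mul_one]
  have h3 : (q : ℂ) ≠ 0 := by exact_mod_cast hq0.ne'
  have h4 : (1 : ℂ) - (q : ℂ) ^ L ≠ 0 := by
    have : (1 : ℝ) - q ^ L ≠ 0 := by linarith
    exact_mod_cast this
  have h5 : (1 : ℂ) - (q : ℂ) ^ 2 ≠ 0 := by
    have : (1 : ℝ) - q ^ 2 ≠ 0 := by linarith
    exact_mod_cast this
  have h6 : ((q⁻¹ - q : ℝ) : ℂ) = (1 - (q : ℂ) ^ 2) / q := by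
    push_cast
    field_simp
  have h7 : (((L : ℝ) / (q⁻¹ - q) * ((1 + q ^ L) / (1 - q ^ L)) : ℝ) : ℂ) =
      (L : ℂ) / ((q⁻¹ - q : ℝ) : ℂ) * ((1 + (q : ℂ) ^ L) / (1 - (q : ℂ) ^ L)) := by
    push_cast
    ring
  rw [h7, h6]
  field_simp
  ring

theorem sinh_le_exp {u : ℝ} (hu : 0 < u) : Real.sinh u ≤ 2 * u * Real.cosh u := by
  have h1 := Real.add_one_le_exp (-(2 * u))
  have h2 : Real.exp (-(2 * u)) * Real.exp u = Real.exp (-u) := by
    rw [← Real.exp_add]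
    congr 1
    ring
  have h3 : (-(2 * u) + 1) * Real.exp u ≤ Real.exp (-u) := by
    rw [← h2]
    exact mul_le_mul_of_nonneg_right h1 (Real.exp_pos _).le
  rw [Real.sinh_eq, Real.cosh_eq]
  nlinarith [Real.exp_pos u, Real.exp_pos (-u), mul_pos hu (Real.exp_pos (-u))]

theorem ratio_le {w a : ℝ} (hw : 0 < w) (ha : 2 * Real.cosh w - 2 = a) :
    0 ≤ a / (2 * Real.sinh w) ∧ a / (2 * Real.sinh w) ≤ w := by
  have hs : 0 < Real.sinh w := Real.sinh_pos_iff.2 hw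
  have hu : 0 < w / 2 := by linarith
  have h1 : Real.cosh w = 2 * Real.sinh (w / 2) ^ 2 + 1 := by
    have h := Real.cosh_two_mul (w / 2)
    rw [show 2 * (w / 2) = w by ring, Real.cosh_sq] at h
    linarith
  have h2 : Real.sinh w = 2 * Real.sinh (w / 2) * Real.cosh (w / 2) := by
    rw [← Real.sinh_two_mul]
    congr 1
    ring
  have h3 := sinh_le_exp hu
  have h4 : 0 < Real.sinh (w / 2) := Real.sinh_pos_iff.2 hu
  have ha0 : a = 4 * Real.sinh (w / 2) ^ 2 := by linarith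
  constructor
  · rw [ha0]
    positivity
  · rw [div_le_iff₀ (by positivity), ha0, h2]
    have h5 : Real.sinh (w / 2) * Real.sinh (w / 2) ≤
        Real.sinh (w / 2) * (2 * (w / 2) * Real.cosh (w / 2)) :=
      mul_le_mul_of_nonneg_left h3 h4.le
    nlinarith

theorem poisson_bd {L : ℕ} (hL : 1 ≤ L) {w a : ℝ} (hw : 0 < w) (ha : 2 * Real.cosh w - 2 = a) :
    |∑ m ∈ Finset.range L, a / (a + 2 - 2 * Real.cos (2 * Real.pi * m / L)) -
      L * (a / (2 * Real.sinh w))| ≤ 2 := by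
  have hs : 0 < Real.sinh w := Real.sinh_pos_iff.2 hw
  have hL0 : (0 : ℝ) < L := by exact_mod_cast hL
  have hy : 0 < w * L := by positivity
  obtain ⟨r1, r2⟩ := ratio_le hw ha
  have h1 : ∑ m ∈ Finset.range L, a / (a + 2 - 2 * Real.cos (2 * Real.pi * m / L)) =
      a * ∑ m ∈ Finset.range L, 1 / (a + 2 - 2 * Real.cos (2 * Real.pi * m / L)) := by
    rw [Finset.mul_sum]
    refine Finset.sum_congr rfl fun m _ => ?_
    rw [mul_one_div]
  rw [h1, poisson hL hw ha]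
  obtain ⟨Q, hQ⟩ : ∃ Q, Q = Real.exp (-(w * L)) := ⟨_, rfl⟩
  have hQ0 : 0 < Q := by rw [hQ]; exact Real.exp_pos _
  have hQ1 : Q < 1 := by
    rw [hQ, ← Real.exp_zero]
    exact Real.exp_lt_exp.2 (by linarith)
  rw [← hQ]
  have h2 : a * (L / (2 * Real.sinh w) * ((1 + Q) / (1 - Q))) - L * (a / (2 * Real.sinh w)) =
      L * (a / (2 * Real.sinh w)) * (2 * (Q / (1 - Q))) := by
    have : 1 - Q ≠ 0 := by linarith
    field_simp
    ring
  have h3 : Q / (1 - Q) ≤ 1 / (w * L) := by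
    have h4 := Real.add_one_le_exp (w * L)
    have h5 : Q * Real.exp (w * L) = 1 := by
      rw [hQ, ← Real.exp_add, neg_add_cancel, Real.exp_zero]
    rw [div_le_div_iff₀ (by linarith) hy]
    nlinarith
  have h3' : 0 ≤ Q / (1 - Q) := div_nonneg hQ0.le (by linarith)
  rw [h2, abs_of_nonneg (by positivity)]
  calc L * (a / (2 * Real.sinh w)) * (2 * (Q / (1 - Q))) ≤ L * w * (2 * (1 / (w * L))) := by
        refine mul_le_mul (mul_le_mul_of_nonneg_left r2 hL0.le) (by linarith) (by positivity)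
          (by positivity)
    _ = 2 := by field_simp

/-! ### the symmetry of the four directions -/

/-- the symbol in one direction -/
def c1 {L : ℕ} (m : ZMod L) : ℝ := 2 - 2 * Real.cos (2 * Real.pi * (m.val : ℝ) / L)

theorem c1_nonneg {L : ℕ} (m : ZMod L) : 0 ≤ c1 m := by
  unfold c1
  linarith [Real.cos_le_one (2 * Real.pi * (m.val : ℝ) / L)]

theorem c1_zero {L : ℕ} [NeZero L] : c1 (0 : ZMod L) = 0 := by
  unfold c1
  rw [ZMod.val_zero]
  simp

theorem c1_eq_zero {L : ℕ} [NeZero L] {m : ZMod L} (h : c1 m = 0) : m = 0 := by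
  unfold c1 at h
  have hL : (0 : ℝ) < L := by exact_mod_cast Nat.pos_of_ne_zero (NeZero.ne L)
  have h1 : Real.cos (2 * Real.pi * (m.val : ℝ) / L) = 1 := by linarith
  have hlt : ((m.val : ℕ) : ℝ) < L := by exact_mod_cast ZMod.val_lt m
  have hp := Real.pi_pos
  have hv : (0 : ℝ) ≤ (m.val : ℝ) := Nat.cast_nonneg _
  rw [Real.cos_eq_one_iff_of_lt_of_lt] at h1
  · have h2 : (m.val : ℝ) = 0 := by
      rw [div_eq_zero_iff] at h1
      rcases h1 with h1 | h1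
      · rcases mul_eq_zero.1 h1 with h1 | h1
        · exact absurd h1 (by positivity)
        · exact h1
      · exact absurd h1 hL.ne'
    have h3 : m.val = 0 := by exact_mod_cast h2
    exact (ZMod.val_eq_zero m).1 h3
  · have : 0 ≤ 2 * Real.pi * (m.val : ℝ) / L := by positivity
    linarith
  · rw [div_lt_iff₀ hL]
    exact mul_lt_mul_of_pos_left hlt (by positivity)

/-- the symbol in four dimensions -/
def c4 {L : ℕ} (κ : Fin 4 → ZMod L) : ℝ := ∑ i, c1 (κ i)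

theorem c4_eq_zero_iff {L : ℕ} [NeZero L] (κ : Fin 4 → ZMod L) : c4 κ = 0 ↔ κ = 0 := by
  unfold c4
  rw [Finset.sum_eq_zero_iff_of_nonneg fun i _ => c1_nonneg _]
  constructor
  · intro h
    funext i
    exact c1_eq_zero (h i (Finset.mem_univ i))
  · rintro rfl i _
    exact c1_zero

theorem T_eq (L : ℕ) [NeZero L] (i : Fin 4) :
    ∑ κ : Fin 4 → ZMod L, c1 (κ i) / c4 κ = ∑ κ : Fin 4 → ZMod L, c1 (κ 0) / c4 κ := by
  refine Fintype.sum_equiv (Equiv.arrowCongr (Equiv.swap i 0) (Equiv.refl _)) _ _ (fun κ => ?_)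
  have h1 : (Equiv.arrowCongr (Equiv.swap i 0) (Equiv.refl (ZMod L))) κ =
      fun j => κ (Equiv.swap i 0 j) := by
    funext j
    simp [Equiv.arrowCongr]
  rw [h1]
  have h2 : c4 (fun j => κ (Equiv.swap i 0 j)) = c4 κ := by
    unfold c4
    exact Equiv.sum_comp (Equiv.swap i 0) fun j => c1 (κ j)
  rw [h2]
  show c1 (κ i) / c4 κ = c1 (κ (Equiv.swap i 0 0)) / c4 κ
  rw [Equiv.swap_apply_right]

theorem T_sum (L : ℕ) [NeZero L] :
    4 * ∑ κ : Fin 4 → ZMod L, c1 (κ 0) / c4 κ = (L : ℝ) ^ 4 - 1 := by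
  have h1 : ∑ i : Fin 4, ∑ κ : Fin 4 → ZMod L, c1 (κ i) / c4 κ =
      4 * ∑ κ : Fin 4 → ZMod L, c1 (κ 0) / c4 κ := by
    rw [Finset.sum_congr rfl fun i _ => T_eq L i, Finset.sum_const, Finset.card_univ,
      Fintype.card_fin, nsmul_eq_mul]
    norm_num
  rw [← h1, Finset.sum_comm]
  have h2 : ∀ κ : Fin 4 → ZMod L, ∑ i : Fin 4, c1 (κ i) / c4 κ = 1 - (if κ = 0 then 1 else 0) := by
    intro κ
    rw [← Finset.sum_div]
    split_ifs with h
    · have : c4 κ = 0 := (c4_eq_zero_iff κ).2 h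
      rw [this, div_zero, sub_self]
    · have : c4 κ ≠ 0 := fun h' => h ((c4_eq_zero_iff κ).1 h')
      rw [sub_zero]
      exact div_self this
  rw [Finset.sum_congr rfl fun κ _ => h2 κ, Finset.sum_sub_distrib, Finset.sum_const,
    Finset.card_univ, Fintype.card_fun, ZMod.card, Fintype.card_fin, nsmul_eq_mul, mul_one,
    Finset.sum_ite_eq' Finset.univ (0 : Fin 4 → ZMod L), if_pos (Finset.mem_univ _)]
  push_cast
  ring

theorem wh2_c1 {L : ℕ} (k : Sp L) : wh2 k = ∑ j, c1 (k j) := rfl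

theorem nz_sum {L : ℕ} [NeZero L] (f : Sp L → ℝ) (h0 : f 0 = 0) :
    ∑ k ∈ nz L, f k = ∑ k, f k := by
  unfold nz
  rw [Finset.sum_filter]
  refine Finset.sum_congr rfl fun k _ => ?_
  split_ifs with h
  · rfl
  · rw [not_not] at h
    rw [h, h0]

theorem wh2_zero {L : ℕ} [NeZero L] : wh2 (0 : Sp L) = 0 := by
  rw [wh2_c1]
  exact Finset.sum_eq_zero fun j _ => c1_zero

/-- sums over the fourth momentum -/
theorem sum_range_zmod (L : ℕ) [NeZero L] (a : ℝ) :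
    ∑ m ∈ Finset.range L, a / (a + 2 - 2 * Real.cos (2 * Real.pi * m / L)) =
      ∑ m : ZMod L, a / (a + c1 m) := by
  symm
  refine Finset.sum_bij (fun m _ => m.val) (fun m _ => Finset.mem_range.2 (ZMod.val_lt m))
    (fun m _ m' _ h => ZMod.val_injective L h) (fun b hb => ?_) (fun m _ => ?_)
  · exact ⟨(b : ZMod L), Finset.mem_univ _, ZMod.val_natCast_of_lt (Finset.mem_range.1 hb)⟩
  · unfold c1
    congr 1
    ring

theorem four_sum (L : ℕ) [NeZero L] :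
    ∑ k ∈ nz L, ∑ m ∈ Finset.range L,
      wh2 k / (wh2 k + 2 - 2 * Real.cos (2 * Real.pi * m / L)) = 3 / 4 * ((L : ℝ) ^ 4 - 1) := by
  rw [nz_sum (fun k => ∑ m ∈ Finset.range L,
      wh2 k / (wh2 k + 2 - 2 * Real.cos (2 * Real.pi * m / L))) (by simp [wh2_zero])]
  rw [Finset.sum_congr rfl fun k _ => sum_range_zmod L (wh2 k), Finset.sum_comm]
  have h1 : ∑ κ : Fin 4 → ZMod L, (∑ j : Fin 3, c1 (κ j.succ)) / c4 κ =
      ∑ m : ZMod L, ∑ k : Sp L, wh2 k / (wh2 k + c1 m) := by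
    rw [← Fintype.sum_prod_type' (f := fun (m : ZMod L) (k : Sp L) => wh2 k / (wh2 k + c1 m))]
    symm
    refine Fintype.sum_equiv (Fin.consEquiv fun _ => ZMod L) _ _ (fun p => ?_)
    have h2 : c4 ((Fin.consEquiv fun _ => ZMod L) p) = c1 p.1 + ∑ j : Fin 3, c1 (p.2 j) := by
      unfold c4
      rw [Fin.sum_univ_succ]
      rfl
    rw [h2, wh2_c1, add_comm (c1 p.1)]
    rfl
  rw [← h1]
  have h3 : ∀ κ : Fin 4 → ZMod L, (∑ j : Fin 3, c1 (κ j.succ)) / c4 κ =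
      ∑ j : Fin 3, c1 (κ j.succ) / c4 κ := fun κ => by rw [Finset.sum_div]
  rw [Finset.sum_congr rfl fun κ _ => h3 κ, Finset.sum_comm,
    Finset.sum_congr rfl fun (j : Fin 3) _ => T_eq L j.succ, Finset.sum_const, Finset.card_univ,
    Fintype.card_fin, nsmul_eq_mul]
  have := T_sum L
  push_cast
  linarith

theorem wh2_perm {L : ℕ} (k : Sp L) (e : Equiv.Perm (Fin 3)) : wh2 (fun j => k (e j)) = wh2 k := by
  rw [wh2_c1, wh2_c1]
  exact Equiv.sum_comp e fun j => c1 (k j)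

theorem share (L : ℕ) [NeZero L] (i : Fin 3) :
    ∑ k : Sp L, (2 - 2 * Real.cos (ang k i)) / (2 * Real.sinh (en k)) =
      ∑ k : Sp L, (2 - 2 * Real.cos (ang k 0)) / (2 * Real.sinh (en k)) := by
  refine Fintype.sum_equiv (Equiv.arrowCongr (Equiv.swap i 0) (Equiv.refl _)) _ _ (fun k => ?_)
  have h1 : (Equiv.arrowCongr (Equiv.swap i 0) (Equiv.refl (ZMod L))) k =
      fun j => k (Equiv.swap i 0 j) := by
    funext j
    simp [Equiv.arrowCongr]
  rw [h1]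
  have h2 : en (fun j => k (Equiv.swap i 0 j)) = en k := by
    unfold en
    rw [wh2_perm]
  have h3 : ang (fun j => k (Equiv.swap i 0 j)) 0 = ang k i := by
    show 2 * Real.pi * ((k (Equiv.swap i 0 0)).val : ℝ) / L = 2 * Real.pi * ((k i).val : ℝ) / L
    rw [Equiv.swap_apply_right]
  rw [h2, h3]

theorem share_sum (L : ℕ) [NeZero L] :
    3 * ∑ k ∈ nz L, (2 - 2 * Real.cos (ang k 0)) / (2 * Real.sinh (en k)) =
      ∑ k ∈ nz L, wh2 k / (2 * Real.sinh (en k)) := by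
  have h0 : ∀ i : Fin 3, 2 - 2 * Real.cos (ang (0 : Sp L) i) = 0 := by
    intro i
    have := c1_zero (L := L)
    exact this
  rw [nz_sum _ (by rw [h0, zero_div]), nz_sum _ (by rw [wh2_zero, zero_div])]
  have h1 : ∀ k : Sp L, wh2 k / (2 * Real.sinh (en k)) =
      ∑ i : Fin 3, (2 - 2 * Real.cos (ang k i)) / (2 * Real.sinh (en k)) := by
    intro k
    rw [← Finset.sum_div]
    rfl
  rw [Finset.sum_congr rfl fun k _ => h1 k, Finset.sum_comm,
    Finset.sum_congr rfl fun (i : Fin 3) _ => share L i, Finset.sum_const, Finset.card_univ,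
    Fintype.card_fin, nsmul_eq_mul]
  norm_num

theorem card_nz' (L : ℕ) [NeZero L] : ((nz L).card : ℝ) = (L : ℝ) ^ 3 - 1 := by
  have h1 : (nz L).card = Fintype.card (Sp L) - 1 := by
    unfold nz
    rw [Finset.filter_ne' Finset.univ (0 : Sp L), Finset.card_erase_of_mem (Finset.mem_univ _),
      Finset.card_univ]
  have h2 : Fintype.card (Sp L) = L ^ 3 := by
    rw [Fintype.card_fun, ZMod.card, Fintype.card_fin]
  have h3 : 1 ≤ L ^ 3 := Nat.one_le_pow _ _ (Nat.pos_of_ne_zero (NeZero.ne L))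
  rw [h1, h2, Nat.cast_sub h3]
  push_cast
  ring

theorem af_wh : S_WH := by
  intro hWF hEN _
  obtain ⟨c, C, -, -, hen⟩ := hEN
  obtain ⟨C1, hC1⟩ : ∃ C1 : ℝ, C1 = 5 * (1 + 9 * K1) + 1 := ⟨_, rfl⟩
  have hC10 : 0 ≤ C1 := by
    rw [hC1]
    have := K1_pos
    positivity
  have herr : ∀ L : ℕ, |trace ((rs (Hm (L := L + 2)))⁻¹ * rs (H01 (L := L + 2))) /
      ((L + 2 : ℕ) : ℝ) ^ 4 - 1 / 2| ≤ (C1 + 5) * (1 / ((L + 2 : ℕ) : ℝ)) := by
    intro L
    obtain ⟨M, hM⟩ : ∃ M : ℝ, M = ((L + 2 : ℕ) : ℝ) := ⟨_, rfl⟩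
    have hM2 : 2 ≤ M := by
      rw [hM]
      push_cast
      have : (0 : ℝ) ≤ L := Nat.cast_nonneg L
      linarith
    have hM0 : 0 < M := by linarith
    rw [hWF (L + 2) (by omega)]
    have h1 : ∀ k ∈ nz (L + 2), |WF (L + 2) (ang k 0) (en k) -
        M * hm (ang k 0) (wh2 k) (Real.sinh (en k))| ≤ C1 := by
      intro k hk
      have hk0 : k ≠ 0 := (Finset.mem_filter.1 hk).2
      obtain ⟨g1, g2, g3, g4, -⟩ := hen (L + 2) (by omega) k hk0
      rw [hC1, hM]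
      exact WF_est g1 g3 (by omega) g2 g4 (ang_le k)
    have h2 : |∑ k ∈ nz (L + 2), (WF (L + 2) (ang k 0) (en k) -
        M * hm (ang k 0) (wh2 k) (Real.sinh (en k)))| ≤ M ^ 3 * C1 := by
      refine (Finset.abs_sum_le_sum_abs _ _).trans ((Finset.sum_le_sum h1).trans ?_)
      rw [Finset.sum_const, nsmul_eq_mul]
      refine mul_le_mul_of_nonneg_right ?_ hC10
      rw [hM]
      exact card_nz (L + 2)
    -- the main sum
    obtain ⟨A, hA⟩ : ∃ A : ℝ, A = ∑ k ∈ nz (L + 2), wh2 k / (2 * Real.sinh (en k)) := ⟨_, rfl⟩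
    have h3 : |3 / 4 * (M ^ 4 - 1) - M * A| ≤ 2 * M ^ 3 := by
      have h4 := four_sum (L + 2)
      rw [← hM] at h4
      rw [← h4, hA, Finset.mul_sum, ← Finset.sum_sub_distrib]
      have h5 : ∀ k ∈ nz (L + 2), |∑ m ∈ Finset.range (L + 2),
          wh2 k / (wh2 k + 2 - 2 * Real.cos (2 * Real.pi * m / M)) -
          M * (wh2 k / (2 * Real.sinh (en k)))| ≤ 2 := by
        intro k hk
        have hk0 : k ≠ 0 := (Finset.mem_filter.1 hk).2
        obtain ⟨g1, g2, g3, g4, -⟩ := hen (L + 2) (by omega) k hk0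
        rw [hM]
        exact poisson_bd (by omega) g1 g4
      refine (Finset.abs_sum_le_sum_abs _ _).trans ((Finset.sum_le_sum h5).trans ?_)
      rw [Finset.sum_const, nsmul_eq_mul, mul_comm]
      refine mul_le_mul_of_nonneg_left ?_ (by norm_num)
      rw [hM]
      exact card_nz (L + 2)
    have h6 : ∑ k ∈ nz (L + 2), hm (ang k 0) (wh2 k) (Real.sinh (en k)) =
        (M ^ 3 - 1) - 2 / 3 * A := by
      have h7 := share_sum (L + 2)
      rw [← hA] at h7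
      have h8 : ∀ k : Sp (L + 2), hm (ang k 0) (wh2 k) (Real.sinh (en k)) =
          1 + ((2 - 2 * Real.cos (ang k 0)) / (2 * Real.sinh (en k)) -
            wh2 k / (2 * Real.sinh (en k))) := by
        intro k
        unfold hm
        rw [sub_div]
      rw [Finset.sum_congr rfl fun k _ => h8 k, Finset.sum_add_distrib, Finset.sum_sub_distrib,
        ← hA, Finset.sum_const, nsmul_eq_mul, card_nz', ← hM]
      linarith
    rw [← hM]
    have h9 : ((∑ k ∈ nz (L + 2), WF (L + 2) (ang k 0) (en k)) + (M - 1)) / M ^ 4 - 1 / 2 =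
        (∑ k ∈ nz (L + 2), (WF (L + 2) (ang k 0) (en k) -
          M * hm (ang k 0) (wh2 k) (Real.sinh (en k))) +
          2 / 3 * (3 / 4 * (M ^ 4 - 1) - M * A) - 1 / 2) / M ^ 4 := by
      rw [Finset.sum_sub_distrib, ← Finset.mul_sum, h6]
      field_simp
      ring
    rw [h9, abs_div, abs_of_pos (show 0 < M ^ 4 by positivity), div_le_iff₀ (by positivity)]
    have h10 : (C1 + 5) * (1 / M) * M ^ 4 = (C1 + 5) * M ^ 3 := by
      field_simp
    rw [h10]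
    have h11 : (1 : ℝ) ≤ M ^ 3 := one_le_pow₀ (by linarith)
    rw [abs_le] at h2 h3 ⊢
    constructor
    · linarith [h2.1, h3.1]
    · linarith [h2.2, h3.2]
  have h0 : Tendsto (fun L : ℕ => 1 / ((L + 2 : ℕ) : ℝ)) atTop (𝓝 0) := by
    have := (tendsto_one_div_atTop_nhds_zero_nat (𝕜 := ℝ)).comp (tendsto_add_atTop_nat 2)
    exact this
  have h1 : Tendsto (fun L : ℕ => (C1 + 5) * (1 / ((L + 2 : ℕ) : ℝ))) atTop (𝓝 0) := by
    have := h0.const_mul (C1 + 5)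
    rwa [mul_zero] at this
  have h2 := squeeze_zero_norm (fun L => by rw [Real.norm_eq_abs]; exact herr L) h1
  have h3 := h2.add_const (1 / 2)
  rw [zero_add] at h3
  refine h3.congr fun L => ?_
  ring

end

end Pool.Agent.Y710.AF
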